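import Mathlib

/-!
# Counting dimensions with almost commuting projections
-/

set_option autoImplicit false
set_option linter.unusedSectionVars false
set_option linter.unusedVariables false

open Finset
open scoped InnerProductSpace

namespace Pool.Agent.Peps99

variable {E : Type*} [NormedAddCommGroup E] [InnerProductSpace ℂ E] [CompleteSpace E]

lemma proj_sym {Q : E →L[ℂ] E} (hQ : IsStarProjection Q) (x y : E) :
    ⟪Q x, y⟫_ℂ = ⟪x, Q y⟫_ℂ := hQ.isSelfAdjoint.isSymmetric x y

lemma proj_idem {Q : E →L[ℂ] E} (hQ : IsStarProjection Q) (x : E) : Q (Q x) = Q x := by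
  have := congrArg (fun T : E →L[ℂ] E => T x) hQ.isIdempotentElem.eq
  simpa using this

lemma proj_pyth {Q : E →L[ℂ] E} (hQ : IsStarProjection Q) (v : E) :
    ‖Q v‖ ^ 2 + ‖(1 - Q) v‖ ^ 2 = ‖v‖ ^ 2 := by
  have horth : ⟪Q v, (1 - Q) v⟫_ℂ = 0 := by
    simp only [sub_apply, one_apply_eq_self, inner_sub_right]
    rw [proj_sym hQ v v, proj_sym hQ v (Q v), proj_idem hQ]
    simp
  have hv : v = Q v + (1 - Q) v := by simp
  have := norm_add_sq_eq_norm_sq_add_norm_sq_of_inner_eq_zero (𝕜 := ℂ) _ _ horth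
  rw [← hv] at this
  nlinarith [this]

/-- The product, over `i < k` in increasing order (the largest one acts last), of `Q i` for `i ∈ S`
and `1 - Q i` for `i ∉ S`. -/
noncomputable def meas (Q : ℕ → E →L[ℂ] E) (S : Finset ℕ) : ℕ → (E →L[ℂ] E)
  | 0 => 1
  | k + 1 => (if k ∈ S then Q k else 1 - Q k) * meas Q S k

lemma meas_congr (Q : ℕ → E →L[ℂ] E) {S T : Finset ℕ} {k : ℕ} (h : ∀ i < k, (i ∈ S ↔ i ∈ T)) :
    meas Q S k = meas Q T k := by
  induction k with
  | zero => rfl
  | succ k ih =>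
    simp only [meas]
    rw [ih fun i hi => h i (by omega)]
    by_cases hk : k ∈ S
    · rw [if_pos hk, if_pos ((h k (by omega)).1 hk)]
    · rw [if_neg hk, if_neg fun hk' => hk ((h k (by omega)).2 hk')]

lemma sum_meas_succ (Q : ℕ → E →L[ℂ] E) (k : ℕ) (v : E) (F : Finset ℕ → E → ℝ) :
    ∑ S ∈ (range (k + 1)).powerset, F S (meas Q S (k + 1) v) =
      ∑ S ∈ (range k).powerset, (F S ((1 - Q k) (meas Q S k v)) +
        F (insert k S) (Q k (meas Q S k v))) := by
  rw [range_add_one, sum_powerset_insert (by simp), sum_add_distrib]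
  congr 1
  · refine sum_congr rfl fun S hS => ?_
    have hk : k ∉ S := fun h => by simpa using mem_powerset.1 hS h
    simp [meas, hk]
  · refine sum_congr rfl fun S hS => ?_
    have hk : k ∉ S := fun h => by simpa using mem_powerset.1 hS h
    have : meas Q (insert k S) k = meas Q S k := meas_congr Q fun i hi => by
      simp only [mem_insert]
      constructor
      · rintro (h | h)
        · omega
        · exact h
      · exact Or.inr
    simp [meas, this]

lemma sum_meas_sq (Q : ℕ → E →L[ℂ] E) (hQ : ∀ i, IsStarProjection (Q i)) (k : ℕ) (v : E) :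
    ∑ S ∈ (range k).powerset, ‖meas Q S k v‖ ^ 2 = ‖v‖ ^ 2 := by
  induction k with
  | zero => simp [meas]
  | succ k ih =>
    rw [sum_meas_succ Q k v fun _ x => ‖x‖ ^ 2, ← ih]
    refine sum_congr rfl fun S _ => ?_
    rw [add_comm]
    exact proj_pyth (hQ k) _

/-- One measurement changes the expectation of `R` by at most `2 eps`. -/
lemma step_le {Q R : E →L[ℂ] E} (hQ : IsStarProjection Q) (hR : IsStarProjection R) {eps : ℝ}
    (h : ‖R * Q - Q * R‖ ≤ eps) (x : E) :
    ‖R ((1 - Q) x)‖ ^ 2 + ‖R (Q x)‖ ^ 2 ≤ ‖R x‖ ^ 2 + 2 * eps * ‖x‖ ^ 2 := by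
  have hRx : ∀ y : E, ‖R y‖ ^ 2 = (⟪y, R y⟫_ℂ).re := by
    intro y
    have h1 : ⟪R y, R y⟫_ℂ = ⟪y, R y⟫_ℂ := by
      rw [proj_sym hR y (R y), proj_idem hR]
    rw [← h1, inner_self_eq_norm_sq_to_K]
    norm_cast
  have hQsym := proj_sym hQ
  have hid := proj_idem hQ
  -- G R Q = G (R Q - Q R)
  set G : E →L[ℂ] E := 1 - Q with hG
  have hGsym : ∀ a b : E, ⟪G a, b⟫_ℂ = ⟪a, G b⟫_ℂ := by
    intro a b
    simp only [hG, sub_apply, one_apply_eq_self, inner_sub_left,
      inner_sub_right, hQsym]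
  have hGn : ∀ y, ‖G y‖ ≤ ‖y‖ := by
    intro y
    have := proj_pyth hQ y
    rw [← hG] at this
    nlinarith [norm_nonneg (G y), norm_nonneg y, sq_nonneg ‖Q y‖]
  have hkey : ‖⟪G x, R (Q x)⟫_ℂ‖ ≤ eps * ‖x‖ ^ 2 := by
    have h1 : ⟪G x, R (Q x)⟫_ℂ = ⟪G x, (R * Q - Q * R) x⟫_ℂ := by
      have h2 : ⟪G x, Q (R x)⟫_ℂ = 0 := by
        rw [← hQsym, hG]
        simp [hid]
      simp only [sub_apply, mul_apply_eq_comp, inner_sub_right, h2,
        sub_zero]
    rw [h1]
    calc ‖⟪G x, (R * Q - Q * R) x⟫_ℂ‖ ≤ ‖G x‖ * ‖(R * Q - Q * R) x‖ := norm_inner_le_norm _ _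
      _ ≤ ‖x‖ * (eps * ‖x‖) := by
          refine mul_le_mul (hGn x) ?_ (norm_nonneg _) (norm_nonneg _)
          exact (ContinuousLinearMap.le_opNorm _ _).trans
            (mul_le_mul_of_nonneg_right h (norm_nonneg _))
      _ = eps * ‖x‖ ^ 2 := by ring
  have hx : x = G x + Q x := by simp [hG]
  have hexp : (⟪x, R x⟫_ℂ).re = (⟪G x, R (G x)⟫_ℂ).re + (⟪Q x, R (Q x)⟫_ℂ).re +
      2 * (⟪G x, R (Q x)⟫_ℂ).re := by
    conv_lhs => rw [hx]
    rw [map_add, inner_add_left, inner_add_right, inner_add_right]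
    have : (⟪Q x, R (G x)⟫_ℂ).re = (⟪G x, R (Q x)⟫_ℂ).re := by
      rw [← proj_sym hR (Q x) (G x)]
      exact inner_re_symm (𝕜 := ℂ) _ _
    simp only [Complex.add_re, this]
    ring
  rw [hRx, hRx, hRx, hexp]
  have := (abs_le.1 (Complex.abs_re_le_norm ⟪G x, R (Q x)⟫_ℂ)).1
  nlinarith [hkey, this]

/-- Measurements before: the expectation of `Q i`. -/
lemma sum_before (Q : ℕ → E →L[ℂ] E) (hQ : ∀ i, IsStarProjection (Q i)) {eps : ℝ} (heps : 0 ≤ eps)
    (hc : ∀ i j, ‖Q i * Q j - Q j * Q i‖ ≤ eps) (i k : ℕ) (v : E) :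
    ∑ S ∈ (range k).powerset, ‖Q i (meas Q S k v)‖ ^ 2 ≤ ‖Q i v‖ ^ 2 + 2 * k * eps * ‖v‖ ^ 2 := by
  induction k with
  | zero => simp [meas]
  | succ k ih =>
    rw [sum_meas_succ Q k v fun _ x => ‖Q i x‖ ^ 2]
    calc ∑ S ∈ (range k).powerset, (‖Q i ((1 - Q k) (meas Q S k v))‖ ^ 2 +
          ‖Q i (Q k (meas Q S k v))‖ ^ 2)
        ≤ ∑ S ∈ (range k).powerset, (‖Q i (meas Q S k v)‖ ^ 2 + 2 * eps * ‖meas Q S k v‖ ^ 2) :=
          sum_le_sum fun S _ => step_le (hQ k) (hQ i) (hc i k) _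
      _ = ∑ S ∈ (range k).powerset, ‖Q i (meas Q S k v)‖ ^ 2 + 2 * eps * ‖v‖ ^ 2 := by
          rw [sum_add_distrib, ← mul_sum, sum_meas_sq Q hQ]
      _ ≤ _ := by
          push_cast
          linarith

/-- `∑_{S ∋ i} |M_S v|²`. -/
lemma sum_mem (Q : ℕ → E →L[ℂ] E) (hQ : ∀ i, IsStarProjection (Q i)) {eps : ℝ} (heps : 0 ≤ eps)
    (hc : ∀ i j, ‖Q i * Q j - Q j * Q i‖ ≤ eps) (i n : ℕ) (hi : i < n) (v : E) :
    ∑ S ∈ (range n).powerset, (if i ∈ S then ‖meas Q S n v‖ ^ 2 else 0) ≤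
      ‖Q i v‖ ^ 2 + 2 * n * eps * ‖v‖ ^ 2 := by
  have hmain : ∀ k, i < k → ∑ S ∈ (range k).powerset,
      (if i ∈ S then ‖meas Q S k v‖ ^ 2 else 0) =
      ∑ S ∈ (range i).powerset, ‖Q i (meas Q S i v)‖ ^ 2 := by
    intro k hk
    induction k with
    | zero => omega
    | succ k ih =>
      rw [sum_meas_succ Q k v fun S x => if i ∈ S then ‖x‖ ^ 2 else 0]
      rcases Nat.lt_succ_iff_lt_or_eq.1 hk with h | h
      · rw [← ih h]
        refine sum_congr rfl fun S _ => ?_
        have : i ∈ insert k S ↔ i ∈ S := by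
          simp only [mem_insert]
          constructor
          · rintro (h' | h')
            · omega
            · exact h'
          · exact Or.inr
        simp only [this]
        by_cases hS : i ∈ S
        · simp only [hS, if_true]
          rw [add_comm]
          exact proj_pyth (hQ k) _
        · simp [hS]
      · subst h
        refine sum_congr rfl fun S hS => ?_
        have hk : i ∉ S := fun h => by simpa using mem_powerset.1 hS h
        simp [hk]
  rw [hmain n hi]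
  refine (sum_before Q hQ heps hc i i v).trans ?_
  have : (i : ℝ) ≤ n := by exact_mod_cast hi.le
  nlinarith [mul_nonneg heps (sq_nonneg ‖v‖)]

/-- `∑_{S ∌ i} |Q_i M_S v|²`. -/
lemma sum_notMem (Q : ℕ → E →L[ℂ] E) (hQ : ∀ i, IsStarProjection (Q i)) {eps : ℝ}
    (heps : 0 ≤ eps) (hc : ∀ i j, ‖Q i * Q j - Q j * Q i‖ ≤ eps) (i n : ℕ) (hi : i < n) (v : E) :
    ∑ S ∈ (range n).powerset, (if i ∉ S then ‖Q i (meas Q S n v)‖ ^ 2 else 0) ≤
      2 * n * eps * ‖v‖ ^ 2 := by
  have hmain : ∀ k, i < k → ∑ S ∈ (range k).powerset,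
      (if i ∉ S then ‖Q i (meas Q S k v)‖ ^ 2 else 0) ≤ 2 * k * eps * ‖v‖ ^ 2 := by
    intro k hk
    induction k with
    | zero => omega
    | succ k ih =>
      rw [sum_meas_succ Q k v fun S x => if i ∉ S then ‖Q i x‖ ^ 2 else 0]
      rcases Nat.lt_succ_iff_lt_or_eq.1 hk with h | h
      · have h1 : ∀ S ∈ (range k).powerset,
            ((if i ∉ S then ‖Q i ((1 - Q k) (meas Q S k v))‖ ^ 2 else 0) +
              (if i ∉ insert k S then ‖Q i (Q k (meas Q S k v))‖ ^ 2 else 0)) ≤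
            (if i ∉ S then ‖Q i (meas Q S k v)‖ ^ 2 else 0) + 2 * eps * ‖meas Q S k v‖ ^ 2 := by
          intro S _
          have : i ∈ insert k S ↔ i ∈ S := by
            simp only [mem_insert]
            constructor
            · rintro (h' | h')
              · omega
              · exact h'
            · exact Or.inr
          simp only [this]
          by_cases hS : i ∈ S
          · simp only [hS, not_true_eq_false, if_false, zero_add]
            positivity
          · simp only [hS, not_false_eq_true, if_true]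
            exact step_le (hQ k) (hQ i) (hc i k) _
        refine (sum_le_sum h1).trans ?_
        rw [sum_add_distrib, ← mul_sum, sum_meas_sq Q hQ]
        have := ih h
        push_cast
        linarith
      · subst h
        have h1 : ∀ S ∈ (range i).powerset,
            ((if i ∉ S then ‖Q i ((1 - Q i) (meas Q S i v))‖ ^ 2 else 0) +
              (if i ∉ insert i S then ‖Q i (Q i (meas Q S i v))‖ ^ 2 else 0)) = 0 := by
          intro S _
          simp [proj_idem (hQ i)]
        rw [sum_congr rfl h1, sum_const_zero]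
        positivity
  exact hmain n hi

/-- Dimension counting. -/
theorem finrank_le_nat [FiniteDimensional ℂ E] (Q : ℕ → E →L[ℂ] E)
    (hQ : ∀ i, IsStarProjection (Q i)) {eps : ℝ}
    (heps : 0 ≤ eps) (hc : ∀ i j, ‖Q i * Q j - Q j * Q i‖ ≤ eps) (n m : ℕ)
    (K : Finset ℕ → Submodule ℂ E) {β Eb : ℝ} (hβ : 0 < β)
    (hK : ∀ S ⊆ range n, S.card ≤ m → ∀ x ∈ (K S)ᗮ,
      β * ‖x‖ ^ 2 ≤ ∑ i ∈ range n \ S, ‖Q i x‖ ^ 2)
    (V : Submodule ℂ E) (hV : ∀ v ∈ V, ∑ i ∈ range n, ‖Q i v‖ ^ 2 ≤ Eb * ‖v‖ ^ 2)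
    (hnum : (Eb + 2 * n ^ 2 * eps) / (m + 1) + 2 * n ^ 2 * eps / β < 1) :
    Module.finrank ℂ V ≤
      ∑ S ∈ (range n).powerset with S.card ≤ m, Module.finrank ℂ (K S) := by
  classical
  by_contra hlt
  push Not at hlt
  set I : Finset (Finset ℕ) := (range n).powerset.filter fun S => S.card ≤ m with hI
  -- the linear map
  let f : V →ₗ[ℂ] ((S : I) → K S.1) := LinearMap.pi fun S =>
    ((K S.1).orthogonalProjectionOnto.toLinearMap ∘ₗ (meas Q S.1 n).toLinearMap) ∘ₗ V.subtype
  have hdim : Module.finrank ℂ ((S : I) → K S.1) < Module.finrank ℂ V := by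
    rw [Module.finrank_pi_fintype]
    rw [Finset.sum_coe_sort I fun S => Module.finrank ℂ (K S)]
    exact hlt
  obtain ⟨v, hv0, hv⟩ : ∃ v : V, v ≠ 0 ∧ f v = 0 := by
    have hker : LinearMap.ker f ≠ ⊥ := LinearMap.ker_ne_bot_of_finrank_lt hdim
    obtain ⟨v, hv, hv0⟩ := Submodule.exists_mem_ne_zero_of_ne_bot hker
    exact ⟨v, hv0, hv⟩
  have hperp : ∀ S ⊆ range n, S.card ≤ m → meas Q S n (v : E) ∈ (K S)ᗮ := by
    intro S hS hSm
    have hSI : S ∈ I := by simp [hI, hS, hSm]
    have := congrFun hv ⟨S, hSI⟩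
    have h2 : (K S).orthogonalProjectionOnto (meas Q S n (v : E)) = 0 := this
    exact Submodule.orthogonalProjectionOnto_eq_zero_iff.1 h2
  have hvn : 0 < ‖(v : E)‖ ^ 2 := by
    have : (v : E) ≠ 0 := by simpa using hv0
    positivity
  have hsum := sum_meas_sq Q hQ n (v : E)
  have h1 : ∑ S ∈ (range n).powerset, (if m < S.card then ‖meas Q S n (v : E)‖ ^ 2 else 0) ≤
      (Eb + 2 * n ^ 2 * eps) / (m + 1) * ‖(v : E)‖ ^ 2 := by
    have h2 : ∑ S ∈ (range n).powerset, (S.card : ℝ) * ‖meas Q S n (v : E)‖ ^ 2 ≤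
        (Eb + 2 * n ^ 2 * eps) * ‖(v : E)‖ ^ 2 := by
      have h3 : ∀ S ∈ (range n).powerset, (S.card : ℝ) * ‖meas Q S n (v : E)‖ ^ 2 =
          ∑ i ∈ range n, if i ∈ S then ‖meas Q S n (v : E)‖ ^ 2 else 0 := by
        intro S hS
        rw [← sum_filter, sum_const, nsmul_eq_mul]
        congr 3
        ext i
        simp only [mem_filter]
        exact ⟨fun h => ⟨mem_powerset.1 hS h, h⟩, fun h => h.2⟩
      rw [sum_congr rfl h3, sum_comm]
      calc ∑ i ∈ range n, ∑ S ∈ (range n).powerset, (if i ∈ S then ‖meas Q S n (v : E)‖ ^ 2 else 0)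
          ≤ ∑ i ∈ range n, (‖Q i (v : E)‖ ^ 2 + 2 * n * eps * ‖(v : E)‖ ^ 2) :=
            sum_le_sum fun i hi => sum_mem Q hQ heps hc i n (mem_range.1 hi) _
        _ ≤ _ := by
            rw [sum_add_distrib, sum_const, card_range, nsmul_eq_mul]
            have := hV v v.2
            nlinarith [this]
    rw [div_mul_eq_mul_div, le_div_iff₀ (by positivity)]
    refine le_trans ?_ h2
    rw [sum_mul]
    refine sum_le_sum fun S _ => ?_
    split_ifs with h
    · rw [mul_comm]
      refine mul_le_mul_of_nonneg_right ?_ (by positivity)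
      exact_mod_cast h
    · rw [zero_mul]
      positivity
  have h2 : ∑ S ∈ (range n).powerset, (if S.card ≤ m then ‖meas Q S n (v : E)‖ ^ 2 else 0) ≤
      2 * n ^ 2 * eps / β * ‖(v : E)‖ ^ 2 := by
    rw [div_mul_eq_mul_div, le_div_iff₀ hβ, sum_mul]
    calc ∑ S ∈ (range n).powerset, (if S.card ≤ m then ‖meas Q S n (v : E)‖ ^ 2 else 0) * β
        ≤ ∑ S ∈ (range n).powerset, ∑ i ∈ range n,
            (if i ∉ S then ‖Q i (meas Q S n (v : E))‖ ^ 2 else 0) := by
          refine sum_le_sum fun S hS => ?_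
          split_ifs with h
          · rw [mul_comm]
            refine (hK S (mem_powerset.1 hS) h _ (hperp S (mem_powerset.1 hS) h)).trans ?_
            rw [← sum_filter]
            refine le_of_eq (sum_congr ?_ fun _ _ => rfl)
            ext i
            simp
          · rw [zero_mul]
            exact sum_nonneg fun i _ => by split_ifs <;> positivity
      _ = ∑ i ∈ range n, ∑ S ∈ (range n).powerset,
            (if i ∉ S then ‖Q i (meas Q S n (v : E))‖ ^ 2 else 0) := sum_comm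
      _ ≤ ∑ i ∈ range n, 2 * n * eps * ‖(v : E)‖ ^ 2 :=
          sum_le_sum fun i hi => sum_notMem Q hQ heps hc i n (mem_range.1 hi) _
      _ = 2 * n ^ 2 * eps * ‖(v : E)‖ ^ 2 := by
          rw [sum_const, card_range, nsmul_eq_mul]
          ring
  have h3 : ∑ S ∈ (range n).powerset, ‖meas Q S n (v : E)‖ ^ 2 =
      ∑ S ∈ (range n).powerset, (if m < S.card then ‖meas Q S n (v : E)‖ ^ 2 else 0) +
      ∑ S ∈ (range n).powerset, (if S.card ≤ m then ‖meas Q S n (v : E)‖ ^ 2 else 0) := by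
    rw [← sum_add_distrib]
    refine sum_congr rfl fun S _ => ?_
    rcases Nat.lt_or_ge m S.card with h | h
    · simp [h, not_le.2 h]
    · simp [h, not_lt.2 h]
  nlinarith [hsum, h1, h2, h3, mul_lt_mul_of_pos_right hnum hvn]

/-- Dimension counting, over a finite index type. -/
theorem finrank_le {ι : Type*} [Fintype ι] [DecidableEq ι] [FiniteDimensional ℂ E]
    (Q : ι → E →L[ℂ] E) (hQ : ∀ i, IsStarProjection (Q i)) {eps : ℝ}
    (heps : 0 ≤ eps) (hc : ∀ i j, ‖Q i * Q j - Q j * Q i‖ ≤ eps) (m : ℕ)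
    (K : Finset ι → Submodule ℂ E) {β Eb : ℝ} (hβ : 0 < β)
    (hK : ∀ S : Finset ι, S.card ≤ m → ∀ x ∈ (K S)ᗮ, β * ‖x‖ ^ 2 ≤ ∑ i ∈ Sᶜ, ‖Q i x‖ ^ 2)
    (V : Submodule ℂ E) (hV : ∀ v ∈ V, ∑ i, ‖Q i v‖ ^ 2 ≤ Eb * ‖v‖ ^ 2)
    (hnum : (Eb + 2 * (Fintype.card ι : ℝ) ^ 2 * eps) / (m + 1) +
      2 * (Fintype.card ι : ℝ) ^ 2 * eps / β < 1) :
    Module.finrank ℂ V ≤
      ∑ S : Finset ι with S.card ≤ m, Module.finrank ℂ (K S) := by
  classical
  set n := Fintype.card ι with hn
  let e : ι ≃ Fin n := Fintype.equivFin ι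
  let Q' : ℕ → E →L[ℂ] E := fun i => if h : i < n then Q (e.symm ⟨i, h⟩) else 0
  have hQ' : ∀ i, IsStarProjection (Q' i) := by
    intro i
    by_cases h : i < n
    · simp only [Q', h, dif_pos]
      exact hQ _
    · simp only [Q', h, dif_neg, not_false_eq_true]
      exact IsStarProjection.zero _
  have hQe : ∀ j : ι, Q' (e j : ℕ) = Q j := by
    intro j
    simp [Q']
  have hc' : ∀ i j, ‖Q' i * Q' j - Q' j * Q' i‖ ≤ eps := by
    intro i j
    by_cases h : i < n
    · by_cases h' : j < n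
      · simp only [Q', h, h', dif_pos]
        exact hc _ _
      · simp [Q', h', heps]
    · simp [Q', h, heps]
  let g : ι ↪ ℕ := ⟨fun j => (e j : ℕ), fun a b h => e.injective (Fin.ext h)⟩
  have hg : (univ : Finset ι).map g = range n := by
    ext i
    simp only [mem_map, mem_univ, true_and, mem_range, g, Function.Embedding.coeFn_mk]
    constructor
    · rintro ⟨j, rfl⟩
      exact (e j).2
    · intro h
      exact ⟨e.symm ⟨i, h⟩, by simp⟩
  let back : Finset ℕ → Finset ι := fun S => univ.filter fun j => g j ∈ S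
  have hback : ∀ T : Finset ι, back (T.map g) = T := by
    intro T
    ext j
    simp [back]
  have hmapback : ∀ S ⊆ range n, (back S).map g = S := by
    intro S hS
    ext i
    simp only [mem_map, back, mem_filter, mem_univ, true_and]
    constructor
    · rintro ⟨j, hj, rfl⟩
      exact hj
    · intro hi
      have := hS hi
      rw [← hg, mem_map] at this
      obtain ⟨j, -, hj⟩ := this
      exact ⟨j, by rw [hj]; exact hi, hj⟩
  have hsumV : ∀ x : E, ∑ i ∈ range n, ‖Q' i x‖ ^ 2 = ∑ j, ‖Q j x‖ ^ 2 := by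
    intro x
    rw [← hg, sum_map]
    exact sum_congr rfl fun j _ => by rw [show g j = (e j : ℕ) from rfl, hQe]
  have key := finrank_le_nat Q' hQ' heps hc' n m (fun S => K (back S)) hβ ?_ V ?_ hnum
  · refine key.trans (le_of_eq ?_)
    refine Finset.sum_bij' (fun S _ => back S) (fun T _ => T.map g) ?_ ?_ ?_ ?_ ?_
    · intro S hS
      simp only [mem_filter, mem_powerset, mem_univ, true_and] at hS ⊢
      rw [← card_map g, hmapback S hS.1]
      exact hS.2
    · intro T hT
      simp only [mem_filter, mem_powerset, mem_univ, true_and, card_map] at hT ⊢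
      refine ⟨?_, hT⟩
      rw [← hg]
      exact map_subset_map.2 (subset_univ _)
    · intro S hS
      exact hmapback S (mem_powerset.1 (mem_filter.1 hS).1)
    · intro T _
      exact hback T
    · intro S _
      rfl
  · intro S hS hSm x hx
    refine (hK (back S) ?_ x hx).trans (le_of_eq ?_)
    · rw [← card_map g, hmapback S hS]
      exact hSm
    · have h1 : range n \ S = ((back S)ᶜ).map g := by
        ext i
        simp only [mem_sdiff, mem_range, mem_map, mem_compl, back, mem_filter, mem_univ, true_and]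
        constructor
        · rintro ⟨h, h'⟩
          have : i ∈ range n := mem_range.2 h
          rw [← hg, mem_map] at this
          obtain ⟨j, -, hj⟩ := this
          exact ⟨j, by rw [hj]; exact h', hj⟩
        · rintro ⟨j, hj, rfl⟩
          exact ⟨(e j).2, hj⟩
      rw [h1, sum_map]
      exact sum_congr rfl fun j _ => by rw [show g j = (e j : ℕ) from rfl, hQe]
  · intro v hv
    rw [hsumV]
    exact hV v hv

end Pool.Agent.Peps99
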