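import Pool.Agent.Peps99.Count

/-!
# The detectability lemma and approximate commutation of local ground space projections
-/

set_option autoImplicit false
set_option linter.unusedSectionVars false
set_option linter.unusedVariables false

open Finset
open scoped InnerProductSpace

namespace Pool.Agent.Peps99

variable {E : Type*} [NormedAddCommGroup E] [InnerProductSpace ℂ E] [FiniteDimensional ℂ E]
variable {ι : Type*} [DecidableEq ι]

/-- The product of the operators `1 - Q v` along a list (the head acts last). -/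
noncomputable def prodL (Q : ι → E →L[ℂ] E) (l : List ι) : E →L[ℂ] E :=
  (l.map fun v => 1 - Q v).prod

@[simp] lemma prodL_nil (Q : ι → E →L[ℂ] E) : prodL Q [] = 1 := rfl

lemma prodL_cons (Q : ι → E →L[ℂ] E) (v : ι) (l : List ι) :
    prodL Q (v :: l) = (1 - Q v) * prodL Q l := by simp [prodL]

lemma prodL_append (Q : ι → E →L[ℂ] E) (l l' : List ι) :
    prodL Q (l ++ l') = prodL Q l * prodL Q l' := by simp [prodL]

/-- The amount of violation found at `w`. -/
noncomputable def found (Q : ι → E →L[ℂ] E) (x : E) : List ι → ι → ℝ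
  | [] => fun _ => 0
  | v :: l => Function.update (found Q x l) v ‖Q v (prodL Q l x)‖

lemma found_nonneg (Q : ι → E →L[ℂ] E) (x : E) (l : List ι) (w : ι) : 0 ≤ found Q x l w := by
  induction l with
  | nil => exact le_rfl
  | cons v l ih =>
    by_cases h : w = v
    · subst h
      simp [found]
    · simpa [found, h] using ih

lemma one_sub_le {Q : E →L[ℂ] E} (hQ : IsStarProjection Q) (x : E) : ‖(1 - Q) x‖ ≤ ‖x‖ := by
  have := proj_pyth hQ x
  nlinarith [norm_nonneg ((1 - Q) x), norm_nonneg x, sq_nonneg ‖Q x‖]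

lemma proj_le {Q : E →L[ℂ] E} (hQ : IsStarProjection Q) (x : E) : ‖Q x‖ ≤ ‖x‖ := by
  have := proj_pyth hQ x
  nlinarith [norm_nonneg (Q x), norm_nonneg x, sq_nonneg ‖(1 - Q) x‖]

lemma sum_found (Q : ι → E →L[ℂ] E) (hQ : ∀ v, IsStarProjection (Q v)) (x : E) (l : List ι)
    (hl : l.Nodup) : ∑ w ∈ l.toFinset, found Q x l w ^ 2 = ‖x‖ ^ 2 - ‖prodL Q l x‖ ^ 2 := by
  induction l with
  | nil => simp
  | cons v l ih =>
    rw [List.nodup_cons] at hl
    have hv : v ∉ l.toFinset := by simpa using hl.1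
    rw [List.toFinset_cons, sum_insert hv]
    have h1 : ∑ w ∈ l.toFinset, found Q x (v :: l) w ^ 2 = ∑ w ∈ l.toFinset, found Q x l w ^ 2 := by
      refine sum_congr rfl fun w hw => ?_
      have : w ≠ v := fun h => hv (h ▸ hw)
      simp [found, this]
    rw [h1, ih hl.2]
    have := proj_pyth (hQ v) (prodL Q l x)
    rw [prodL_cons]
    simp only [found, Function.update_self, mul_apply_eq_comp]
    linarith

lemma norm_le_found (Q : ι → E →L[ℂ] E) (hQ : ∀ v, IsStarProjection (Q v)) (ov : ι → ι → Prop)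
    [DecidableRel ov] (hov : ∀ v w, ¬ ov v w → Q v * Q w = Q w * Q v) (x : E) (l : List ι)
    (hl : l.Nodup) (v : ι) (hv : v ∈ l) :
    ‖Q v (prodL Q l x)‖ ≤ ∑ w ∈ l.toFinset with w ≠ v ∧ ov v w, found Q x l w := by
  induction l with
  | nil => simp at hv
  | cons a l ih =>
    rw [List.nodup_cons] at hl
    have ha : a ∉ l.toFinset := by simpa using hl.1
    rw [prodL_cons, mul_apply_eq_comp]
    by_cases hva : v = a
    · subst hva
      have : Q v ((1 - Q v) (prodL Q l x)) = 0 := by simp [proj_idem (hQ v)]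
      rw [this, norm_zero]
      exact sum_nonneg fun w _ => found_nonneg _ _ _ _
    · have hvl : v ∈ l := by
        rcases List.mem_cons.1 hv with h | h
        · exact absurd h hva
        · exact h
      have hih := ih hl.2 hvl
      have hsum : ∑ w ∈ l.toFinset with w ≠ v ∧ ov v w, found Q x l w =
          ∑ w ∈ l.toFinset with w ≠ v ∧ ov v w, found Q x (a :: l) w := by
        refine sum_congr rfl fun w hw => ?_
        have : w ≠ a := fun h => ha (h ▸ (mem_filter.1 hw).1)
        simp [found, this]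
      rw [List.toFinset_cons, filter_insert]
      by_cases hc : ov v a
      · rw [if_pos ⟨fun h => hva h.symm, hc⟩, sum_insert (by simp [ha]), ← hsum]
        have h1 : Q v ((1 - Q a) (prodL Q l x)) = Q v (prodL Q l x) - Q v (Q a (prodL Q l x)) := by
          simp
        rw [h1]
        refine (norm_sub_le _ _).trans ?_
        have h2 := proj_le (hQ v) (Q a (prodL Q l x))
        have h3 : found Q x (a :: l) a = ‖Q a (prodL Q l x)‖ := by simp [found]
        rw [h3]
        linarith
      · rw [if_neg fun h => hc h.2, ← hsum]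
        have h1 : Q v ((1 - Q a) (prodL Q l x)) = (1 - Q a) (Q v (prodL Q l x)) := by
          have := congrArg (fun T : E →L[ℂ] E => T (prodL Q l x)) (hov v a hc)
          simp only [mul_apply_eq_comp] at this
          simp [this]
        rw [h1]
        exact (one_sub_le (hQ a) _).trans hih

/-- **Detectability lemma** (Anshu, Arad, Vidick). -/
theorem detect (Q : ι → E →L[ℂ] E) (hQ : ∀ v, IsStarProjection (Q v)) (ov : ι → ι → Prop)
    [DecidableRel ov] (hsymm : ∀ v w, ov v w → ov w v)
    (hov : ∀ v w, ¬ ov v w → Q v * Q w = Q w * Q v) (x : E) (l : List ι)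
    (hl : l.Nodup) (g : ℕ) (hg : ∀ v ∈ l, (l.toFinset.filter fun w => w ≠ v ∧ ov v w).card ≤ g) :
    ∑ v ∈ l.toFinset, ‖Q v (prodL Q l x)‖ ^ 2 ≤ (g : ℝ) ^ 2 * (‖x‖ ^ 2 - ‖prodL Q l x‖ ^ 2) := by
  rw [← sum_found Q hQ x l hl]
  have h1 : ∀ v ∈ l.toFinset, ‖Q v (prodL Q l x)‖ ^ 2 ≤
      g * ∑ w ∈ l.toFinset with w ≠ v ∧ ov v w, found Q x l w ^ 2 := by
    intro v hv
    have hv' : v ∈ l := by simpa using hv
    have h2 := norm_le_found Q hQ ov hov x l hl v hv'
    have h3 : ‖Q v (prodL Q l x)‖ ^ 2 ≤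
        (∑ w ∈ l.toFinset with w ≠ v ∧ ov v w, found Q x l w) ^ 2 :=
      pow_le_pow_left₀ (norm_nonneg _) h2 2
    refine h3.trans ?_
    refine (sq_sum_le_card_mul_sum_sq).trans ?_
    refine mul_le_mul_of_nonneg_right ?_ (sum_nonneg fun w _ => sq_nonneg _)
    exact_mod_cast hg v hv'
  calc ∑ v ∈ l.toFinset, ‖Q v (prodL Q l x)‖ ^ 2
      ≤ ∑ v ∈ l.toFinset, (g : ℝ) * ∑ w ∈ l.toFinset with w ≠ v ∧ ov v w, found Q x l w ^ 2 :=
        sum_le_sum h1
    _ = g * ∑ w ∈ l.toFinset, ∑ v ∈ l.toFinset with w ≠ v ∧ ov v w, found Q x l w ^ 2 := by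
        rw [← mul_sum]
        congr 1
        simp only [sum_filter]
        exact sum_comm
    _ ≤ g * ∑ w ∈ l.toFinset, g * found Q x l w ^ 2 := by
        refine mul_le_mul_of_nonneg_left (sum_le_sum fun w hw => ?_) (Nat.cast_nonneg g)
        rw [sum_const, nsmul_eq_mul]
        refine mul_le_mul_of_nonneg_right ?_ (sq_nonneg _)
        have hw' : w ∈ l := by simpa using hw
        refine le_trans ?_ (Nat.cast_le.2 (hg w hw'))
        norm_cast
        refine card_le_card fun v hv => ?_
        simp only [mem_filter] at hv ⊢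
        exact ⟨hv.1, fun h => hv.2.1 h.symm, hsymm _ _ hv.2.2⟩
    _ = (g : ℝ) ^ 2 * ∑ w ∈ l.toFinset, found Q x l w ^ 2 := by
        rw [← mul_sum]
        ring

end Pool.Agent.Peps99
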