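import Mathlib

/-!
# The flow: comparing a product of exponentials with the exponential of the sum
-/

set_option autoImplicit false
set_option linter.unusedSectionVars false
set_option linter.unusedVariables false

open Finset NormedSpace

namespace Pool.Agent.Peps99

section Banach

variable {𝔸 : Type*} [NormedRing 𝔸] [NormOneClass 𝔸] [NormedAlgebra ℝ 𝔸] [CompleteSpace 𝔸]

lemma norm_exp_le (x : 𝔸) : ‖exp x‖ ≤ Real.exp ‖x‖ := by
  rw [exp_eq_tsum ℝ, Real.exp_eq_exp_ℝ, exp_eq_tsum ℝ]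
  refine (norm_tsum_le_tsum_norm (norm_expSeries_summable' (𝕂 := ℝ) x)).trans ?_
  refine Summable.tsum_le_tsum (fun n => ?_) (norm_expSeries_summable' (𝕂 := ℝ) x) ?_
  · rw [norm_smul]
    simp only [smul_eq_mul]
    have h1 : ‖((n.factorial : ℝ)⁻¹)‖ = (n.factorial : ℝ)⁻¹ := by
      rw [Real.norm_eq_abs, abs_of_nonneg (by positivity)]
    rw [h1]
    exact mul_le_mul_of_nonneg_left (norm_pow_le x n) (by positivity)
  · exact expSeries_summable' (𝕂 := ℝ) ‖x‖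

lemma exp_mul_exp_neg (x : 𝔸) : exp x * exp (-x) = 1 := by
  let +nondep : NormedAlgebra ℚ 𝔸 := .restrictScalars ℚ ℝ 𝔸
  rw [← exp_add_of_commute (Commute.neg_right (Commute.refl x)), add_neg_cancel, exp_zero]

lemma exp_neg_mul_exp (x : 𝔸) : exp (-x) * exp x = 1 := by
  have := exp_mul_exp_neg (-x)
  rwa [neg_neg] at this

lemma exp_add' {x y : 𝔸} (h : Commute x y) : exp (x + y) = exp x * exp y := by
  let +nondep : NormedAlgebra ℚ 𝔸 := .restrictScalars ℚ ℝ 𝔸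
  exact exp_add_of_commute h

/-- Conjugation by `exp x`. -/
noncomputable def cj (x y : 𝔸) : 𝔸 := exp x * y * exp (-x)

lemma norm_cj_le (x y : 𝔸) : ‖cj x y‖ ≤ Real.exp (2 * ‖x‖) * ‖y‖ := by
  calc ‖cj x y‖ ≤ ‖exp x‖ * ‖y‖ * ‖exp (-x)‖ :=
        (norm_mul_le _ _).trans (mul_le_mul_of_nonneg_right (norm_mul_le _ _) (norm_nonneg _))
    _ ≤ Real.exp ‖x‖ * ‖y‖ * Real.exp ‖x‖ := by
        refine mul_le_mul (mul_le_mul_of_nonneg_right (norm_exp_le x) (norm_nonneg _)) ?_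
          (norm_nonneg _) (by positivity)
        have := norm_exp_le (-x)
        rwa [norm_neg] at this
    _ = Real.exp (2 * ‖x‖) * ‖y‖ := by
        rw [two_mul, Real.exp_add]
        ring

lemma cj_add_of_commute {x x' y : 𝔸} (h : Commute x x') (hy : Commute x' y) :
    cj (x + x') y = cj x y := by
  unfold cj
  rw [exp_add' h, neg_add, exp_add' (h.neg_left.neg_right)]
  have h1 : exp x' * y = y * exp x' := (hy.exp_left).eq
  have h2 : Commute (exp (-x)) (exp (-x')) := (h.neg_left.neg_right).exp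
  calc exp x * exp x' * y * (exp (-x) * exp (-x'))
      = exp x * (exp x' * y) * (exp (-x) * exp (-x')) := by noncomm_ring
    _ = exp x * y * exp x' * (exp (-x') * exp (-x)) := by rw [h1, h2.eq]; noncomm_ring
    _ = exp x * y * (exp x' * exp (-x')) * exp (-x) := by noncomm_ring
    _ = exp x * y * exp (-x) := by rw [exp_mul_exp_neg, mul_one]

lemma cj_sub (x y z : 𝔸) : cj x (y - z) = cj x y - cj x z := by
  unfold cj
  noncomm_ring

lemma hasDerivAt_cj (x y : 𝔸) (u : ℝ) :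
    HasDerivAt (fun u : ℝ => cj (u • x) y) (cj (u • x) (x * y - y * x)) u := by
  have h1 : HasDerivAt (fun u : ℝ => exp (u • x)) (exp (u • x) * x) u :=
    hasDerivAt_exp_smul_const x u
  have h2 : HasDerivAt (fun u : ℝ => exp (u • (-x))) ((-x) * exp (u • (-x))) u :=
    hasDerivAt_exp_smul_const' (-x) u
  have h3 := (h1.mul_const y).mul h2
  simp only [smul_neg] at h3
  refine h3.congr_deriv ?_
  unfold cj
  noncomm_ring

lemma norm_cj_sub_le (x y : 𝔸) : ‖cj x y - y‖ ≤ Real.exp (2 * ‖x‖) * ‖x * y - y * x‖ := by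
  have h := norm_image_sub_le_of_norm_deriv_le_segment_01'
    (f := fun u : ℝ => cj (u • x) y) (f' := fun u : ℝ => cj (u • x) (x * y - y * x))
    (C := Real.exp (2 * ‖x‖) * ‖x * y - y * x‖)
    (fun u _ => (hasDerivAt_cj x y u).hasDerivWithinAt) (by
      intro u hu
      refine (norm_cj_le _ _).trans (mul_le_mul_of_nonneg_right ?_ (norm_nonneg _))
      refine Real.exp_le_exp.2 ?_
      rw [norm_smul, Real.norm_eq_abs, abs_of_nonneg hu.1]
      nlinarith [norm_nonneg x, hu.2])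
  simpa [cj] using h

variable {ι : Type*} [DecidableEq ι]

/-- The sum of the `Q i`, `i ∈ c`. -/
def XX (Q : ι → 𝔸) (c : Finset ι) : 𝔸 := ∑ i ∈ c, Q i

/-- The sum over all classes. -/
def NN (Q : ι → 𝔸) (l : List (Finset ι)) : 𝔸 := (l.map (XX Q)).sum

/-- The product of the `exp (- t X_c)`. -/
noncomputable def PL (Q : ι → 𝔸) (t : ℝ) (l : List (Finset ι)) : 𝔸 :=
  (l.map fun c => exp (-(t • XX Q c))).prod

/-- The iterated conjugation. -/
noncomputable def cjL (Q : ι → 𝔸) (t : ℝ) : List (Finset ι) → 𝔸 → 𝔸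
  | [], Y => Y
  | c :: l, Y => cjL Q t l (cj (t • XX Q c) Y)

/-- The defect. -/
noncomputable def dfct (Q : ι → 𝔸) (t : ℝ) : List (Finset ι) → 𝔸
  | [] => 0
  | c :: l => cjL Q t l (cj (t • XX Q c) (NN Q l) - NN Q l) + dfct Q t l

lemma PL_cons (Q : ι → 𝔸) (t : ℝ) (c : Finset ι) (l : List (Finset ι)) :
    PL Q t (c :: l) = exp (-(t • XX Q c)) * PL Q t l := by simp [PL]

lemma NN_cons (Q : ι → 𝔸) (c : Finset ι) (l : List (Finset ι)) :
    NN Q (c :: l) = XX Q c + NN Q l := by simp [NN]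

lemma PL_mul_cjL (Q : ι → 𝔸) (t : ℝ) (l : List (Finset ι)) (Y : 𝔸) :
    PL Q t l * cjL Q t l Y = Y * PL Q t l := by
  induction l generalizing Y with
  | nil => simp [PL, cjL]
  | cons c l ih =>
    rw [PL_cons, cjL, mul_assoc, ih, cj]
    calc exp (-(t • XX Q c)) * (exp (t • XX Q c) * Y * exp (-(t • XX Q c)) * PL Q t l)
        = (exp (-(t • XX Q c)) * exp (t • XX Q c)) * Y * (exp (-(t • XX Q c)) * PL Q t l) := by
          noncomm_ring
      _ = _ := by rw [exp_neg_mul_exp, one_mul]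

lemma hasDerivAt_PL (Q : ι → 𝔸) (l : List (Finset ι)) (t : ℝ) :
    HasDerivAt (fun t => PL Q t l) (PL Q t l * dfct Q t l - NN Q l * PL Q t l) t := by
  induction l with
  | nil =>
    simp only [PL, dfct, NN, List.map_nil, List.prod_nil, List.sum_nil, mul_zero, zero_mul,
      sub_zero]
    exact hasDerivAt_const t 1
  | cons c l ih =>
    have h2 : HasDerivAt (fun u : ℝ => exp (-(u • XX Q c))) ((-XX Q c) * exp (-(t • XX Q c))) t := by
      have := hasDerivAt_exp_smul_const' (-XX Q c) t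
      simpa only [smul_neg] using this
    have h3 := h2.mul ih
    simp only [PL_cons]
    refine h3.congr_deriv ?_
    have h4 := PL_mul_cjL Q t l (cj (t • XX Q c) (NN Q l) - NN Q l)
    have h5 : exp (-(t • XX Q c)) * ((cj (t • XX Q c) (NN Q l) - NN Q l) * PL Q t l) =
        NN Q l * exp (-(t • XX Q c)) * PL Q t l - exp (-(t • XX Q c)) * NN Q l * PL Q t l := by
      unfold cj
      calc _ = (exp (-(t • XX Q c)) * exp (t • XX Q c)) * NN Q l * exp (-(t • XX Q c)) * PL Q t l -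
            exp (-(t • XX Q c)) * NN Q l * PL Q t l := by noncomm_ring
        _ = _ := by rw [exp_neg_mul_exp, one_mul]
    rw [NN_cons, dfct]
    calc -XX Q c * exp (-(t • XX Q c)) * PL Q t l + exp (-(t • XX Q c)) *
          (PL Q t l * dfct Q t l - NN Q l * PL Q t l)
        = (NN Q l * exp (-(t • XX Q c)) * PL Q t l - exp (-(t • XX Q c)) * NN Q l * PL Q t l) +
          exp (-(t • XX Q c)) * PL Q t l * dfct Q t l -
          (XX Q c + NN Q l) * (exp (-(t • XX Q c)) * PL Q t l) := by noncomm_ring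
      _ = exp (-(t • XX Q c)) * (PL Q t l * cjL Q t l (cj (t • XX Q c) (NN Q l) - NN Q l)) +
          exp (-(t • XX Q c)) * PL Q t l * dfct Q t l -
          (XX Q c + NN Q l) * (exp (-(t • XX Q c)) * PL Q t l) := by rw [← h5, ← h4]
      _ = _ := by noncomm_ring

/-- The flow equation. -/
lemma hasDerivAt_Z (Q : ι → 𝔸) (l : List (Finset ι)) (t : ℝ) :
    HasDerivAt (fun t : ℝ => exp (t • NN Q l) * PL Q t l)
      (exp (t • NN Q l) * PL Q t l * dfct Q t l) t := by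
  have h1 : HasDerivAt (fun u : ℝ => exp (u • NN Q l)) (exp (t • NN Q l) * NN Q l) t :=
    hasDerivAt_exp_smul_const (NN Q l) t
  have h3 := h1.mul (hasDerivAt_PL Q l t)
  refine h3.congr_deriv ?_
  noncomm_ring

variable {Q : ι → 𝔸} {nb : ι → Finset ι} {Δ : ℕ} {eps : ℝ}

/-- `Y` commutes with all `Q v`, `v ∉ J`. -/
def Supp (Q : ι → 𝔸) (Y : 𝔸) (J : Finset ι) : Prop := ∀ v, v ∉ J → Commute (Q v) Y

/-- The closed neighbourhood. -/
def grow (nb : ι → Finset ι) (J : Finset ι) : Finset ι := J ∪ J.biUnion nb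

lemma card_grow (hΔ : ∀ i, (nb i).card ≤ Δ) (J : Finset ι) :
    (grow nb J).card ≤ J.card * (1 + Δ) := by
  refine (card_union_le _ _).trans ?_
  have := card_biUnion_le_card_mul J nb Δ fun i _ => hΔ i
  calc J.card + (J.biUnion nb).card ≤ J.card + J.card * Δ := by omega
    _ = _ := by ring

lemma norm_XX_le (hQ : ∀ i, ‖Q i‖ ≤ 1) (c : Finset ι) : ‖XX Q c‖ ≤ c.card := by
  refine (norm_sum_le _ _).trans ?_
  refine (sum_le_sum fun i _ => hQ i).trans ?_
  simp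

lemma cj_supp (hnb : ∀ i j, j ∉ nb i → Commute (Q j) (Q i)) {Y : 𝔸} {J c : Finset ι}
    (hY : Supp Q Y J) (hc : ∀ i ∈ c, ∀ j ∈ c, Commute (Q i) (Q j)) (t : ℝ) :
    cj (t • XX Q c) Y = cj (t • XX Q (c ∩ J)) Y := by
  have h1 : XX Q c = XX Q (c ∩ J) + XX Q (c \ J) := by
    unfold XX
    rw [add_comm, ← sum_sdiff (inter_subset_left (s₁ := c) (s₂ := J))]
    congr 2
    ext i
    simp
  rw [h1, smul_add]
  refine cj_add_of_commute ?_ ?_
  · refine (Commute.smul_left ?_ t).smul_right t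
    refine Commute.sum_left _ _ _ fun i hi => Commute.sum_right _ _ _ fun j hj => ?_
    exact hc i (mem_of_mem_inter_left hi) j (mem_sdiff.1 hj).1
  · refine Commute.smul_left ?_ t
    exact Commute.sum_left _ _ _ fun i hi => hY i (mem_sdiff.1 hi).2

lemma Supp.cj (hnb : ∀ i j, j ∉ nb i → Commute (Q j) (Q i)) {Y : 𝔸} {J c : Finset ι}
    (hY : Supp Q Y J) (hc : ∀ i ∈ c, ∀ j ∈ c, Commute (Q i) (Q j)) (t : ℝ) :
    Supp Q (cj (t • XX Q c) Y) (grow nb J) := by
  intro w hw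
  rw [cj_supp hnb hY hc]
  simp only [grow, mem_union, mem_biUnion, not_or, not_exists, not_and] at hw
  have h1 : Commute (Q w) (t • XX Q (c ∩ J)) := by
    refine Commute.smul_right ?_ t
    exact Commute.sum_right _ _ _ fun i hi => hnb i w (hw.2 i (mem_of_mem_inter_right hi))
  unfold Peps99.cj
  exact ((h1.exp_right).mul_right (hY w hw.1)).mul_right (h1.neg_right.exp_right)

lemma norm_cj_supp (hnb : ∀ i j, j ∉ nb i → Commute (Q j) (Q i)) (hQ : ∀ i, ‖Q i‖ ≤ 1) {Y : 𝔸}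
    {J c : Finset ι} (hY : Supp Q Y J) (hc : ∀ i ∈ c, ∀ j ∈ c, Commute (Q i) (Q j)) {t : ℝ}
    (ht0 : 0 ≤ t) (ht1 : t ≤ 1) :
    ‖cj (t • XX Q c) Y‖ ≤ Real.exp (2 * J.card) * ‖Y‖ := by
  rw [cj_supp hnb hY hc]
  refine (norm_cj_le _ _).trans (mul_le_mul_of_nonneg_right (Real.exp_le_exp.2 ?_) (norm_nonneg _))
  rw [norm_smul, Real.norm_eq_abs, abs_of_nonneg ht0]
  have h1 := norm_XX_le hQ (c ∩ J)
  have h2 : ((c ∩ J).card : ℝ) ≤ J.card := by exact_mod_cast card_le_card inter_subset_right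
  nlinarith [norm_nonneg (XX Q (c ∩ J))]

lemma norm_cjL_supp (hnb : ∀ i j, j ∉ nb i → Commute (Q j) (Q i)) (hQ : ∀ i, ‖Q i‖ ≤ 1)
    (hΔ : ∀ i, (nb i).card ≤ Δ) {t : ℝ} (ht0 : 0 ≤ t) (ht1 : t ≤ 1) (l : List (Finset ι))
    (hc : ∀ c ∈ l, ∀ i ∈ c, ∀ j ∈ c, Commute (Q i) (Q j)) (Y : 𝔸) (J : Finset ι)
    (hY : Supp Q Y J) :
    ‖cjL Q t l Y‖ ≤ Real.exp (2 * (l.length * (J.card * (1 + Δ) ^ l.length))) * ‖Y‖ := by
  induction l generalizing Y J with
  | nil => simp [cjL]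
  | cons c l ih =>
    rw [cjL]
    have h1 := ih (fun c' hc' => hc c' (by simp [hc'])) _ _ (hY.cj hnb (hc c (by simp)) t)
    refine h1.trans ?_
    have h2 := norm_cj_supp hnb hQ hY (hc c (by simp)) ht0 ht1
    have h3 : ((grow nb J).card : ℝ) ≤ J.card * (1 + Δ) := by exact_mod_cast card_grow hΔ J
    calc Real.exp (2 * (l.length * ((grow nb J).card * (1 + Δ) ^ l.length))) *
          ‖cj (t • XX Q c) Y‖
        ≤ Real.exp (2 * (l.length * (J.card * (1 + Δ) * (1 + Δ) ^ l.length))) *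
          (Real.exp (2 * J.card) * ‖Y‖) := by
          refine mul_le_mul (Real.exp_le_exp.2 ?_) h2 (norm_nonneg _) (by positivity)
          gcongr
      _ = Real.exp (2 * (l.length * (J.card * (1 + Δ) * (1 + Δ) ^ l.length)) + 2 * J.card) *
          ‖Y‖ := by rw [Real.exp_add]; ring
      _ ≤ _ := by
          refine mul_le_mul_of_nonneg_right (Real.exp_le_exp.2 ?_) (norm_nonneg _)
          have h4 : (1 : ℝ) ≤ (1 + Δ) ^ (l.length + 1) := one_le_pow₀ (by linarith [Nat.cast_nonneg (α := ℝ) Δ])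
          have h5 : (0 : ℝ) ≤ J.card := Nat.cast_nonneg _
          rw [List.length_cons]
          push_cast
          rw [pow_succ] at h4 ⊢
          nlinarith [mul_le_mul_of_nonneg_left h4 h5]

/-- The constant. -/
noncomputable def flowC (Δ K : ℕ) : ℝ :=
  Δ * Real.exp (2 * Δ + 2 * (K * (Δ * (1 + Δ) * (1 + Δ) ^ K)))

lemma norm_defect_one (hnb : ∀ i j, j ∉ nb i → Commute (Q j) (Q i)) (hQ : ∀ i, ‖Q i‖ ≤ 1)
    (hΔ : ∀ i, (nb i).card ≤ Δ) (heps : 0 ≤ eps)
    (hcm : ∀ i j, ‖Q i * Q j - Q j * Q i‖ ≤ eps) {t : ℝ} (ht0 : 0 ≤ t) (ht1 : t ≤ 1)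
    (c : Finset ι) (l : List (Finset ι)) (K : ℕ) (hK : l.length ≤ K)
    (hc : ∀ i ∈ c, ∀ j ∈ c, Commute (Q i) (Q j))
    (hl : ∀ c ∈ l, ∀ i ∈ c, ∀ j ∈ c, Commute (Q i) (Q j)) (i : ι) :
    ‖cjL Q t l (cj (t • XX Q c) (Q i) - Q i)‖ ≤ flowC Δ K * eps := by
  have hs : Supp Q (Q i) (nb i) := fun v hv => hnb i v hv
  have h1 : ‖cj (t • XX Q c) (Q i) - Q i‖ ≤ Δ * Real.exp (2 * Δ) * eps := by
    rw [cj_supp hnb hs hc]
    refine (norm_cj_sub_le _ _).trans ?_
    have hcard : ((c ∩ nb i).card : ℝ) ≤ Δ := by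
      exact_mod_cast (card_le_card inter_subset_right).trans (hΔ i)
    have h2 : ‖t • XX Q (c ∩ nb i)‖ ≤ Δ := by
      rw [norm_smul, Real.norm_eq_abs, abs_of_nonneg ht0]
      nlinarith [norm_XX_le hQ (c ∩ nb i), norm_nonneg (XX Q (c ∩ nb i))]
    have h3 : ‖t • XX Q (c ∩ nb i) * Q i - Q i * t • XX Q (c ∩ nb i)‖ ≤ Δ * eps := by
      rw [smul_mul_assoc, mul_smul_comm, ← smul_sub, norm_smul, Real.norm_eq_abs,
        abs_of_nonneg ht0]
      have h4 : ‖XX Q (c ∩ nb i) * Q i - Q i * XX Q (c ∩ nb i)‖ ≤ Δ * eps := by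
        unfold XX
        rw [sum_mul, mul_sum, ← sum_sub_distrib]
        refine (norm_sum_le _ _).trans ?_
        refine (sum_le_sum fun j _ => hcm j i).trans ?_
        rw [sum_const, nsmul_eq_mul]
        exact mul_le_mul_of_nonneg_right hcard heps
      nlinarith [norm_nonneg (XX Q (c ∩ nb i) * Q i - Q i * XX Q (c ∩ nb i))]
    calc _ ≤ Real.exp (2 * Δ) * (Δ * eps) := by
          refine mul_le_mul (Real.exp_le_exp.2 (by linarith)) h3 (norm_nonneg _) (by positivity)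
      _ = _ := by ring
  have h5 : Supp Q (cj (t • XX Q c) (Q i) - Q i) (grow nb (nb i)) := by
    intro w hw
    refine (hs.cj hnb hc t w hw).sub_right (hs w fun h => hw ?_)
    simp [grow, h]
  have h6 := norm_cjL_supp hnb hQ hΔ ht0 ht1 l hl _ _ h5
  refine h6.trans ?_
  have h7 : ((grow nb (nb i)).card : ℝ) ≤ Δ * (1 + Δ) := by
    exact_mod_cast (card_grow hΔ (nb i)).trans (Nat.mul_le_mul_right _ (hΔ i))
  have h8 : (l.length : ℝ) ≤ K := by exact_mod_cast hK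
  have h9 : ((1 : ℝ) + Δ) ^ l.length ≤ (1 + Δ) ^ K :=
    pow_le_pow_right₀ (by linarith [Nat.cast_nonneg (α := ℝ) Δ]) hK
  calc _ ≤ Real.exp (2 * (K * (Δ * (1 + Δ) * (1 + Δ) ^ K))) * (Δ * Real.exp (2 * Δ) * eps) := by
        refine mul_le_mul (Real.exp_le_exp.2 ?_) h1 (norm_nonneg _) (by positivity)
        gcongr
    _ = _ := by
        rw [flowC, Real.exp_add]
        ring

lemma cjL_sub (t : ℝ) (l : List (Finset ι)) (Y W : 𝔸) :
    cjL Q t l (Y - W) = cjL Q t l Y - cjL Q t l W := by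
  induction l generalizing Y W with
  | nil => rfl
  | cons c l ih => rw [cjL, cj_sub, ih, cjL, cjL]

lemma cj_zero (x : 𝔸) : cj x (0 : 𝔸) = 0 := by simp [cj]

lemma cj_add (x y z : 𝔸) : cj x (y + z) = cj x y + cj x z := by
  unfold cj
  noncomm_ring

lemma cjL_zero (t : ℝ) (l : List (Finset ι)) : cjL Q t l (0 : 𝔸) = 0 := by
  induction l with
  | nil => rfl
  | cons c l ih => rw [cjL, cj_zero, ih]

lemma cjL_add (t : ℝ) (l : List (Finset ι)) (Y W : 𝔸) :
    cjL Q t l (Y + W) = cjL Q t l Y + cjL Q t l W := by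
  induction l generalizing Y W with
  | nil => rfl
  | cons c l ih => rw [cjL, cj_add, ih, cjL, cjL]

lemma norm_defect_set (hnb : ∀ i j, j ∉ nb i → Commute (Q j) (Q i)) (hQ : ∀ i, ‖Q i‖ ≤ 1)
    (hΔ : ∀ i, (nb i).card ≤ Δ) (heps : 0 ≤ eps)
    (hcm : ∀ i j, ‖Q i * Q j - Q j * Q i‖ ≤ eps) {t : ℝ} (ht0 : 0 ≤ t) (ht1 : t ≤ 1)
    (c : Finset ι) (l : List (Finset ι)) (K : ℕ) (hK : l.length ≤ K)
    (hc : ∀ i ∈ c, ∀ j ∈ c, Commute (Q i) (Q j))
    (hl : ∀ c ∈ l, ∀ i ∈ c, ∀ j ∈ c, Commute (Q i) (Q j)) (s : Finset ι) :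
    ‖cjL Q t l (cj (t • XX Q c) (XX Q s) - XX Q s)‖ ≤ s.card * (flowC Δ K * eps) := by
  induction s using Finset.induction_on with
  | empty => simp [XX, cj_zero, cjL_zero]
  | insert a s ha ih =>
    have h1 : XX Q (insert a s) = Q a + XX Q s := by simp [XX, ha]
    rw [h1, cj_add, add_sub_add_comm, cjL_add, card_insert_of_notMem ha]
    refine (norm_add_le _ _).trans ?_
    have h2 := norm_defect_one hnb hQ hΔ heps hcm ht0 ht1 c l K hK hc hl a
    push_cast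
    linarith

lemma norm_defect_list (hnb : ∀ i j, j ∉ nb i → Commute (Q j) (Q i)) (hQ : ∀ i, ‖Q i‖ ≤ 1)
    (hΔ : ∀ i, (nb i).card ≤ Δ) (heps : 0 ≤ eps)
    (hcm : ∀ i j, ‖Q i * Q j - Q j * Q i‖ ≤ eps) {t : ℝ} (ht0 : 0 ≤ t) (ht1 : t ≤ 1)
    (c : Finset ι) (l : List (Finset ι)) (K : ℕ) (hK : l.length ≤ K)
    (hc : ∀ i ∈ c, ∀ j ∈ c, Commute (Q i) (Q j))
    (hl : ∀ c ∈ l, ∀ i ∈ c, ∀ j ∈ c, Commute (Q i) (Q j)) (l' : List (Finset ι)) :
    ‖cjL Q t l (cj (t • XX Q c) (NN Q l') - NN Q l')‖ ≤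
      (l'.map Finset.card).sum * (flowC Δ K * eps) := by
  induction l' with
  | nil => simp [NN, cj_zero, cjL_zero]
  | cons a l' ih =>
    rw [NN_cons, cj_add, add_sub_add_comm, cjL_add, List.map_cons, List.sum_cons]
    refine (norm_add_le _ _).trans ?_
    have h2 := norm_defect_set hnb hQ hΔ heps hcm ht0 ht1 c l K hK hc hl a
    rw [Nat.cast_add, add_mul]
    linarith

lemma norm_dfct (hnb : ∀ i j, j ∉ nb i → Commute (Q j) (Q i)) (hQ : ∀ i, ‖Q i‖ ≤ 1)
    (hΔ : ∀ i, (nb i).card ≤ Δ) (heps : 0 ≤ eps)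
    (hcm : ∀ i j, ‖Q i * Q j - Q j * Q i‖ ≤ eps) {t : ℝ} (ht0 : 0 ≤ t) (ht1 : t ≤ 1)
    (l : List (Finset ι)) (K : ℕ) (hK : l.length ≤ K) (n : ℕ) (hn : (l.map Finset.card).sum ≤ n)
    (hl : ∀ c ∈ l, ∀ i ∈ c, ∀ j ∈ c, Commute (Q i) (Q j)) :
    ‖dfct Q t l‖ ≤ l.length * (n * (flowC Δ K * eps)) := by
  induction l with
  | nil => simp [dfct]
  | cons c l ih =>
    simp only [List.map_cons, List.sum_cons] at hn
    rw [List.length_cons] at hK
    have h1 := ih (by omega) (by omega) fun c' hc' => hl c' (by simp [hc'])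
    have h2 := norm_defect_list hnb hQ hΔ heps hcm ht0 ht1 c l K (by omega) (hl c (by simp))
      (fun c' hc' => hl c' (by simp [hc'])) l
    have h3 : (((l.map Finset.card).sum : ℕ) : ℝ) ≤ n := by exact_mod_cast by omega
    have h4 : 0 ≤ flowC Δ K * eps := by
      unfold flowC
      positivity
    rw [dfct, List.length_cons]
    refine (norm_add_le _ _).trans ?_
    push_cast at h2 h3 ⊢
    nlinarith [mul_le_mul_of_nonneg_right h3 h4]

/-- **The flow estimate**: `‖exp N ∏_c exp (- X_c)‖ ≤ exp (C n eps)`. -/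
theorem flow (hnb : ∀ i j, j ∉ nb i → Commute (Q j) (Q i)) (hQ : ∀ i, ‖Q i‖ ≤ 1)
    (hΔ : ∀ i, (nb i).card ≤ Δ) (heps : 0 ≤ eps)
    (hcm : ∀ i j, ‖Q i * Q j - Q j * Q i‖ ≤ eps)
    (l : List (Finset ι)) (K : ℕ) (hK : l.length ≤ K) (n : ℕ) (hn : (l.map Finset.card).sum ≤ n)
    (hl : ∀ c ∈ l, ∀ i ∈ c, ∀ j ∈ c, Commute (Q i) (Q j)) :
    ‖exp (NN Q l) * PL Q 1 l‖ ≤ Real.exp (K * (n * (flowC Δ K * eps))) := by
  set B : ℝ := K * (n * (flowC Δ K * eps)) with hB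
  have hC : 0 ≤ flowC Δ K * eps := by
    unfold flowC
    positivity
  have h := norm_le_gronwallBound_of_norm_deriv_right_le
    (f := fun t : ℝ => exp (t • NN Q l) * PL Q t l)
    (f' := fun t : ℝ => exp (t • NN Q l) * PL Q t l * dfct Q t l) (δ := 1) (K := B) (ε := 0)
    (a := 0) (b := 1)
    (fun t _ => (hasDerivAt_Z Q l t).continuousAt.continuousWithinAt)
    (fun t _ => (hasDerivAt_Z Q l t).hasDerivWithinAt)
    (by simp [PL])
    (by
      intro t ht
      rw [add_zero]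
      refine (norm_mul_le _ _).trans ?_
      rw [mul_comm]
      refine mul_le_mul_of_nonneg_right ?_ (norm_nonneg _)
      refine (norm_dfct hnb hQ hΔ heps hcm ht.1 ht.2.le l K hK n hn hl).trans ?_
      refine mul_le_mul_of_nonneg_right (by exact_mod_cast hK) (by positivity)) 1 (by simp)
  rw [gronwallBound_ε0] at h
  simpa using h

end Banach

end Pool.Agent.Peps99
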