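import Pool.Agent.Peps99.Detect

/-!
# Approximate commutation of local ground space projections
-/

set_option autoImplicit false
set_option linter.unusedSectionVars false
set_option linter.unusedVariables false

open Finset
open scoped InnerProductSpace

namespace Pool.Agent.Peps99

variable {E : Type*} [NormedAddCommGroup E] [InnerProductSpace ℂ E] [FiniteDimensional ℂ E]
variable {ι : Type*} [DecidableEq ι]

/-- The common kernel of the `Q v`, `v ∈ A`. -/
def gsp (Q : ι → E →L[ℂ] E) (A : Finset ι) : Submodule ℂ E :=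
  ⨅ v ∈ A, LinearMap.ker (Q v).toLinearMap

lemma mem_gsp {Q : ι → E →L[ℂ] E} {A : Finset ι} {x : E} :
    x ∈ gsp Q A ↔ ∀ v ∈ A, Q v x = 0 := by
  simp [gsp, Submodule.mem_iInf]

lemma gsp_anti {Q : ι → E →L[ℂ] E} {A B : Finset ι} (h : A ⊆ B) : gsp Q B ≤ gsp Q A :=
  fun _ hx => mem_gsp.2 fun v hv => mem_gsp.1 hx v (h hv)

/-- The projection onto the common kernel. -/
noncomputable def gpr (Q : ι → E →L[ℂ] E) (A : Finset ι) : E →L[ℂ] E := (gsp Q A).starProjection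

lemma gpr_proj (Q : ι → E →L[ℂ] E) (A : Finset ι) : IsStarProjection (gpr Q A) :=
  isStarProjection_starProjection

lemma gpr_mem (Q : ι → E →L[ℂ] E) (A : Finset ι) (x : E) : gpr Q A x ∈ gsp Q A :=
  Submodule.starProjection_apply_mem _ _

lemma gpr_eq {Q : ι → E →L[ℂ] E} {A : Finset ι} {x : E} (h : x ∈ gsp Q A) : gpr Q A x = x :=
  Submodule.starProjection_eq_self_iff.2 h

lemma sub_gpr_mem (Q : ι → E →L[ℂ] E) (A : Finset ι) (x : E) : x - gpr Q A x ∈ (gsp Q A)ᗮ :=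
  Submodule.sub_starProjection_mem_orthogonal _

lemma Q_gpr {Q : ι → E →L[ℂ] E} {A : Finset ι} {v : ι} (hv : v ∈ A) : Q v * gpr Q A = 0 := by
  ext x
  exact mem_gsp.1 (gpr_mem Q A x) v hv

lemma star_mul_eq {S T : E →L[ℂ] E} (hS : IsSelfAdjoint S) (hT : IsSelfAdjoint T) :
    star (S * T) = T * S := by rw [star_mul, hS.star_eq, hT.star_eq]

lemma gpr_Q {Q : ι → E →L[ℂ] E} (hQ : ∀ v, IsStarProjection (Q v)) {A : Finset ι} {v : ι}
    (hv : v ∈ A) : gpr Q A * Q v = 0 := by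
  have := congrArg star (Q_gpr (Q := Q) hv)
  rwa [star_mul_eq (hQ v).isSelfAdjoint (gpr_proj Q A).isSelfAdjoint, star_zero] at this

lemma gpr_mul_of_subset {Q : ι → E →L[ℂ] E} {A B : Finset ι} (h : A ⊆ B) :
    gpr Q A * gpr Q B = gpr Q B := by
  ext x
  exact gpr_eq (gsp_anti h (gpr_mem Q B x))

lemma gpr_mul_of_subset' {Q : ι → E →L[ℂ] E} {A B : Finset ι} (h : A ⊆ B) :
    gpr Q B * gpr Q A = gpr Q B := by
  have := congrArg star (gpr_mul_of_subset (Q := Q) h)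
  rwa [star_mul_eq (gpr_proj Q A).isSelfAdjoint (gpr_proj Q B).isSelfAdjoint,
    (gpr_proj Q B).isSelfAdjoint.star_eq] at this

lemma prodL_gpr {Q : ι → E →L[ℂ] E} {A : Finset ι} (l : List ι) (h : ∀ v ∈ l, v ∈ A) :
    prodL Q l * gpr Q A = gpr Q A := by
  induction l with
  | nil => simp
  | cons v l ih =>
    rw [prodL_cons, mul_assoc, ih fun w hw => h w (by simp [hw]), sub_mul, one_mul,
      Q_gpr (h v (by simp)), sub_zero]

lemma gpr_prodL {Q : ι → E →L[ℂ] E} (hQ : ∀ v, IsStarProjection (Q v)) {A : Finset ι}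
    (l : List ι) (h : ∀ v ∈ l, v ∈ A) : gpr Q A * prodL Q l = gpr Q A := by
  induction l with
  | nil => simp
  | cons v l ih =>
    rw [prodL_cons, ← mul_assoc, mul_sub, mul_one, gpr_Q hQ (h v (by simp)), sub_zero,
      ih fun w hw => h w (by simp [hw])]

/-- The local gap condition for the set `A`. -/
def GapOn (Q : ι → E →L[ℂ] E) (γ : ℝ) (A : Finset ι) : Prop :=
  ∀ x ∈ (gsp Q A)ᗮ, γ * ‖x‖ ^ 2 ≤ ∑ v ∈ A, ‖Q v x‖ ^ 2

lemma shrink (Q : ι → E →L[ℂ] E) (hQ : ∀ v, IsStarProjection (Q v)) (ov : ι → ι → Prop)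
    [DecidableRel ov] (hsymm : ∀ v w, ov v w → ov w v)
    (hov : ∀ v w, ¬ ov v w → Q v * Q w = Q w * Q v) (l : List ι)
    (hl : l.Nodup) (g : ℕ) (hg0 : 0 < g)
    (hg : ∀ v ∈ l, (l.toFinset.filter fun w => w ≠ v ∧ ov v w).card ≤ g) {γ : ℝ} (hγ : 0 ≤ γ)
    (hgap : GapOn Q γ l.toFinset) (x : E) (hx : x ∈ (gsp Q l.toFinset)ᗮ) :
    prodL Q l x ∈ (gsp Q l.toFinset)ᗮ ∧
      ‖prodL Q l x‖ ^ 2 ≤ (1 + γ / g ^ 2)⁻¹ * ‖x‖ ^ 2 := by
  have hmem : prodL Q l x ∈ (gsp Q l.toFinset)ᗮ := by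
    rw [← Submodule.starProjection_apply_eq_zero_iff] at hx ⊢
    have := congrArg (fun T : E →L[ℂ] E => T x)
      (gpr_prodL hQ (A := l.toFinset) l fun v hv => by simpa using hv)
    simp only [mul_apply_eq_comp] at this
    rw [← gpr, this, gpr]
    exact hx
  refine ⟨hmem, ?_⟩
  have h1 := detect Q hQ ov hsymm hov x l hl g hg
  have h2 := hgap _ hmem
  have hg' : (0 : ℝ) < (g : ℝ) ^ 2 := by positivity
  have h3 : (1 + γ / g ^ 2) * ‖prodL Q l x‖ ^ 2 ≤ ‖x‖ ^ 2 := by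
    have : γ * ‖prodL Q l x‖ ^ 2 ≤ g ^ 2 * (‖x‖ ^ 2 - ‖prodL Q l x‖ ^ 2) := h2.trans h1
    have h4 : γ / g ^ 2 * ‖prodL Q l x‖ ^ 2 ≤ ‖x‖ ^ 2 - ‖prodL Q l x‖ ^ 2 := by
      rw [div_mul_eq_mul_div, div_le_iff₀ hg']
      linarith
    nlinarith
  have h5 : 0 < 1 + γ / (g : ℝ) ^ 2 := by positivity
  rw [inv_mul_eq_div, le_div_iff₀ h5]
  linarith

lemma pow_shrink (Q : ι → E →L[ℂ] E) (hQ : ∀ v, IsStarProjection (Q v)) (ov : ι → ι → Prop)
    [DecidableRel ov] (hsymm : ∀ v w, ov v w → ov w v)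
    (hov : ∀ v w, ¬ ov v w → Q v * Q w = Q w * Q v) (l : List ι)
    (hl : l.Nodup) (g : ℕ) (hg0 : 0 < g)
    (hg : ∀ v ∈ l, (l.toFinset.filter fun w => w ≠ v ∧ ov v w).card ≤ g) {γ : ℝ} (hγ : 0 ≤ γ)
    (hgap : GapOn Q γ l.toFinset) (q : ℕ) (x : E) :
    ‖(prodL Q l ^ q - gpr Q l.toFinset) x‖ ^ 2 ≤ (1 + γ / g ^ 2)⁻¹ ^ q * ‖x‖ ^ 2 := by
  have h5 : 0 < 1 + γ / (g : ℝ) ^ 2 := by positivity
  have hG : ∀ k, prodL Q l ^ k * gpr Q l.toFinset = gpr Q l.toFinset := by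
    intro k
    induction k with
    | zero => simp
    | succ k ih =>
      rw [pow_succ, mul_assoc, prodL_gpr l fun v hv => by simpa using hv, ih]
  have h1 : (prodL Q l ^ q - gpr Q l.toFinset) x =
      (prodL Q l ^ q) (x - gpr Q l.toFinset x) := by
    have := congrArg (fun T : E →L[ℂ] E => T x) (hG q)
    simp only [mul_apply_eq_comp] at this
    rw [map_sub, this]
    rfl
  rw [h1]
  have h2 : ∀ k, (prodL Q l ^ k) (x - gpr Q l.toFinset x) ∈ (gsp Q l.toFinset)ᗮ ∧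
      ‖(prodL Q l ^ k) (x - gpr Q l.toFinset x)‖ ^ 2 ≤
        (1 + γ / g ^ 2)⁻¹ ^ k * ‖x - gpr Q l.toFinset x‖ ^ 2 := by
    intro k
    induction k with
    | zero => exact ⟨by simpa using sub_gpr_mem Q l.toFinset x, by simp⟩
    | succ k ih =>
      have h3 := shrink Q hQ ov hsymm hov l hl g hg0 hg hγ hgap _ ih.1
      rw [pow_succ', mul_apply_eq_comp]
      refine ⟨h3.1, h3.2.trans ?_⟩
      rw [pow_succ' ((1 + γ / (g : ℝ) ^ 2)⁻¹) k, mul_assoc]
      exact mul_le_mul_of_nonneg_left ih.2 (by positivity)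
  refine (h2 q).2.trans (mul_le_mul_of_nonneg_left ?_ (by positivity))
  have h3 : ‖x - gpr Q l.toFinset x‖ ≤ ‖x‖ := one_sub_le (gpr_proj Q l.toFinset) x
  exact pow_le_pow_left₀ (norm_nonneg _) h3 2

/-- The layer with number `j`: the positions with colour `j mod K`. -/
noncomputable def layer (A : Finset ι) (col : ι → ℕ) (K j : ℕ) : List ι :=
  A.toList.filter fun v => col v = j % K

/-- The product of the layers `n - 1, …, 0` (the layer `0` acts first). -/
noncomputable def wall (Q : ι → E →L[ℂ] E) (A : Finset ι) (col : ι → ℕ) (K : ℕ) : ℕ → (E →L[ℂ] E)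
  | 0 => 1
  | n + 1 => prodL Q (layer A col K n) * wall Q A col K n

/-- The same with the light cone only. -/
noncomputable def cone (Q : ι → E →L[ℂ] E) (A : Finset ι) (col f : ι → ℕ) (K : ℕ) :
    ℕ → (E →L[ℂ] E)
  | 0 => 1
  | n + 1 => prodL Q ((layer A col K n).filter fun v => f v ≤ n) * cone Q A col f K n

lemma mem_layer {A : Finset ι} {col : ι → ℕ} {K j : ℕ} {v : ι} :
    v ∈ layer A col K j ↔ v ∈ A ∧ col v = j % K := by simp [layer]

lemma commute_prodL {Q : ι → E →L[ℂ] E} {v : ι} {l : List ι}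
    (h : ∀ w ∈ l, Q v * Q w = Q w * Q v) : Commute (1 - Q v) (prodL Q l) := by
  refine Commute.list_prod_right _ _ fun x hx => ?_
  obtain ⟨w, hw, rfl⟩ := List.mem_map.1 hx
  have := h w hw
  simp only [Commute, SemiconjBy, sub_mul, mul_sub, one_mul, mul_one, this]
  abel

lemma prodL_split {Q : ι → E →L[ℂ] E} {l : List ι} (p : ι → Bool)
    (h : ∀ v ∈ l, ∀ w ∈ l, Q v * Q w = Q w * Q v) :
    prodL Q l = prodL Q (l.filter p) * prodL Q (l.filter fun v => !p v) := by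
  rw [← prodL_append]
  refine List.Perm.prod_eq' ((List.filter_append_perm p l).symm.map _) ?_
  rw [List.pairwise_map]
  refine List.pairwise_of_forall_mem_list fun v hv w hw => ?_
  have := h v hv w hw
  simp only [Commute, SemiconjBy, sub_mul, mul_sub, one_mul, mul_one, this]
  abel

lemma wall_eq_cone {Q : ι → E →L[ℂ] E} (hQ : ∀ v, IsStarProjection (Q v)) (ov : ι → ι → Prop)
    (hov : ∀ v w, ¬ ov v w → Q v * Q w = Q w * Q v) {A B : Finset ι} {col f : ι → ℕ} {K : ℕ}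
    (hcol : ∀ v ∈ A ∪ B, ∀ w ∈ A ∪ B, v ≠ w → col v = col w → ¬ ov v w)
    (hf : ∀ v ∈ A ∪ B, ∀ w ∈ A ∪ B, ov v w → f v ≤ f w + 1)
    (hfA : ∀ v ∈ A \ B, f v = 0) (n : ℕ) :
    wall Q (A ∪ B) col K n * gpr Q B = cone Q (A ∪ B) col f K n * gpr Q B := by
  induction n with
  | zero => rfl
  | succ n ih =>
    have hsplit := prodL_split (Q := Q) (l := layer (A ∪ B) col K n) (fun v => decide (f v ≤ n))
      (by
        intro v hv w hw
        by_cases hvw : v = w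
        · rw [hvw]
        · exact hov v w (hcol v (mem_layer.1 hv).1 w (mem_layer.1 hw).1 hvw
            ((mem_layer.1 hv).2.trans (mem_layer.1 hw).2.symm)))
    simp only [wall, cone]
    rw [mul_assoc, ih, hsplit, mul_assoc, mul_assoc]
    congr 1
    rw [← mul_assoc]
    -- the upper part commutes with the cone
    have hcomm : ∀ v ∈ (layer (A ∪ B) col K n).filter (fun v => !decide (f v ≤ n)),
        ∀ k ≤ n, Commute (1 - Q v) (cone Q (A ∪ B) col f K k) := by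
      intro v hv k hk
      rw [List.mem_filter] at hv
      have hvn : n < f v := by simpa using hv.2
      induction k with
      | zero => exact Commute.one_right _
      | succ k ihk =>
        refine Commute.mul_right (commute_prodL fun w hw => ?_) (ihk (by omega))
        rw [List.mem_filter] at hw
        have hwk : f w ≤ k := by simpa using hw.2
        refine hov v w fun ho => ?_
        have := hf v (mem_layer.1 hv.1).1 w (mem_layer.1 hw.1).1 ho
        omega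
    have hcomm2 : Commute (prodL Q ((layer (A ∪ B) col K n).filter fun v => !decide (f v ≤ n)))
        (cone Q (A ∪ B) col f K n) := by
      refine Commute.list_prod_left _ _ fun x hx => ?_
      obtain ⟨v, hv, rfl⟩ := List.mem_map.1 hx
      exact hcomm v hv n le_rfl
    rw [hcomm2.eq, mul_assoc, prodL_gpr]
    intro v hv
    rw [List.mem_filter] at hv
    have hvn : n < f v := by simpa using hv.2
    have hvAB := (mem_layer.1 hv.1).1
    by_contra hvB
    have hvA : v ∈ A \ B := by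
      rcases mem_union.1 hvAB with h | h
      · exact mem_sdiff.2 ⟨h, hvB⟩
      · exact absurd h hvB
    have := hfA v hvA
    omega

lemma gpr_cone {Q : ι → E →L[ℂ] E} (hQ : ∀ v, IsStarProjection (Q v)) {A B : Finset ι}
    {col f : ι → ℕ} {K N : ℕ} (hfB : ∀ v ∈ B \ A, N ≤ f v) (n : ℕ) (hn : n ≤ N) :
    gpr Q A * cone Q (A ∪ B) col f K n = gpr Q A := by
  induction n with
  | zero => simp [cone]
  | succ n ih =>
    simp only [cone]
    rw [← mul_assoc, gpr_prodL hQ, ih (by omega)]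
    intro v hv
    rw [List.mem_filter] at hv
    have hvn : f v ≤ n := by simpa using hv.2
    by_contra hvA
    have hvB : v ∈ B \ A := by
      rcases mem_union.1 (mem_layer.1 hv.1).1 with h | h
      · exact absurd h hvA
      · exact mem_sdiff.2 ⟨h, hvA⟩
    have := hfB v hvB
    omega

/-- All positions of `A`, sorted by colour (the colour `0` is last, so acts first). -/
noncomputable def allL (A : Finset ι) (col : ι → ℕ) (K : ℕ) : ℕ → List ι
  | 0 => []
  | n + 1 => layer A col K n ++ allL A col K n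

lemma prodL_allL (Q : ι → E →L[ℂ] E) (A : Finset ι) (col : ι → ℕ) (K n : ℕ) :
    prodL Q (allL A col K n) = wall Q A col K n := by
  induction n with
  | zero => rfl
  | succ n ih => rw [allL, prodL_append, ih, wall]

lemma mem_allL {A : Finset ι} {col : ι → ℕ} {K n : ℕ} (hn : n ≤ K) {v : ι} :
    v ∈ allL A col K n ↔ v ∈ A ∧ col v < n := by
  induction n with
  | zero => simp [allL]
  | succ n ih =>
    rw [allL, List.mem_append, ih (by omega), mem_layer, Nat.mod_eq_of_lt (by omega)]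
    constructor
    · rintro (h | h)
      · exact ⟨h.1, by omega⟩
      · exact ⟨h.1, by omega⟩
    · rintro ⟨h1, h2⟩
      rcases Nat.lt_succ_iff_lt_or_eq.1 h2 with h | h
      · exact Or.inr ⟨h1, h⟩
      · exact Or.inl ⟨h1, h⟩

lemma nodup_allL {A : Finset ι} {col : ι → ℕ} {K n : ℕ} (hn : n ≤ K) :
    (allL A col K n).Nodup := by
  induction n with
  | zero => simp [allL]
  | succ n ih =>
    rw [allL, List.nodup_append']
    refine ⟨(A.nodup_toList).filter _, ih (by omega), fun v hv hv' => ?_⟩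
    have h1 := (mem_layer.1 hv).2
    rw [Nat.mod_eq_of_lt (by omega)] at h1
    have h2 := ((mem_allL (by omega)).1 hv').2
    omega

lemma wall_add (Q : ι → E →L[ℂ] E) (A : Finset ι) (col : ι → ℕ) (K n : ℕ) :
    wall Q A col K (n + K) = wall Q A col K n * wall Q A col K K := by
  induction n with
  | zero => simp [wall]
  | succ n ih =>
    rw [show n + 1 + K = n + K + 1 by ring, wall, ih, wall, mul_assoc]
    congr 2
    simp [layer]

lemma wall_pow (Q : ι → E →L[ℂ] E) (A : Finset ι) (col : ι → ℕ) (K q : ℕ) :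
    wall Q A col K (q * K) = wall Q A col K K ^ q := by
  induction q with
  | zero => simp [wall]
  | succ q ih => rw [Nat.succ_mul, wall_add, ih, pow_succ]

/-- **Approximate commutation**: if `f` separates `A \ B` from `B \ A` by more than `q K` steps of
the overlap relation, then `G_A G_B` is close to `G_{A ∪ B}`. -/
theorem gpr_mul_gpr_sub (Q : ι → E →L[ℂ] E) (hQ : ∀ v, IsStarProjection (Q v))
    (ov : ι → ι → Prop) [DecidableRel ov] (hsymm : ∀ v w, ov v w → ov w v)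
    (hov : ∀ v w, ¬ ov v w → Q v * Q w = Q w * Q v) {A B : Finset ι} {col f : ι → ℕ} {K : ℕ}
    (hcolK : ∀ v ∈ A ∪ B, col v < K)
    (hcol : ∀ v ∈ A ∪ B, ∀ w ∈ A ∪ B, v ≠ w → col v = col w → ¬ ov v w)
    (hf : ∀ v ∈ A ∪ B, ∀ w ∈ A ∪ B, ov v w → f v ≤ f w + 1)
    (hfA : ∀ v ∈ A \ B, f v = 0) (q : ℕ) (hfB : ∀ v ∈ B \ A, q * K ≤ f v)
    (g : ℕ) (hg0 : 0 < g)
    (hg : ∀ v ∈ A ∪ B, ((A ∪ B).filter fun w => w ≠ v ∧ ov v w).card ≤ g) {γ : ℝ} (hγ : 0 ≤ γ)
    (hgap : GapOn Q γ (A ∪ B)) (x : E) :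
    ‖(gpr Q A * gpr Q B - gpr Q (A ∪ B)) x‖ ^ 2 ≤ (1 + γ / g ^ 2)⁻¹ ^ q * ‖x‖ ^ 2 := by
  set l := allL (A ∪ B) col K K with hl
  have hlf : l.toFinset = A ∪ B := by
    ext v
    rw [List.mem_toFinset, hl, mem_allL le_rfl]
    exact ⟨fun h => h.1, fun h => ⟨h, hcolK v h⟩⟩
  have hpow := pow_shrink Q hQ ov hsymm hov l (nodup_allL le_rfl) g hg0
    (by
      intro v hv
      rw [hlf]
      exact hg v (by rw [← hlf]; simpa using hv)) hγ (by rw [hlf]; exact hgap) q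
  rw [hlf, hl, prodL_allL, ← wall_pow] at hpow
  have h1 : gpr Q A * wall Q (A ∪ B) col K (q * K) * gpr Q B = gpr Q A * gpr Q B := by
    rw [mul_assoc, wall_eq_cone hQ ov hov hcol hf hfA, ← mul_assoc,
      gpr_cone hQ hfB _ le_rfl]
  have h2 : gpr Q A * gpr Q B - gpr Q (A ∪ B) =
      gpr Q A * (wall Q (A ∪ B) col K (q * K) - gpr Q (A ∪ B)) * gpr Q B := by
    rw [mul_sub, sub_mul, h1, gpr_mul_of_subset (subset_union_left),
      gpr_mul_of_subset' (subset_union_right)]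
  rw [h2]
  simp only [mul_apply_eq_comp]
  have h3 := proj_le (gpr_proj Q A) ((wall Q (A ∪ B) col K (q * K) - gpr Q (A ∪ B)) (gpr Q B x))
  have h4 := hpow (gpr Q B x)
  have h5 := proj_le (gpr_proj Q B) x
  have h6 : 0 ≤ (1 + γ / (g : ℝ) ^ 2)⁻¹ ^ q := by positivity
  calc _ ≤ ‖(wall Q (A ∪ B) col K (q * K) - gpr Q (A ∪ B)) (gpr Q B x)‖ ^ 2 :=
        pow_le_pow_left₀ (norm_nonneg _) h3 2
    _ ≤ (1 + γ / g ^ 2)⁻¹ ^ q * ‖gpr Q B x‖ ^ 2 := h4
    _ ≤ _ := mul_le_mul_of_nonneg_left (pow_le_pow_left₀ (norm_nonneg _) h5 2) h6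

/-- The commutator of two local ground space projections is small. -/
theorem gpr_comm (Q : ι → E →L[ℂ] E) (hQ : ∀ v, IsStarProjection (Q v))
    (ov : ι → ι → Prop) [DecidableRel ov] (hsymm : ∀ v w, ov v w → ov w v)
    (hov : ∀ v w, ¬ ov v w → Q v * Q w = Q w * Q v) {A B : Finset ι} {col f : ι → ℕ} {K : ℕ}
    (hcolK : ∀ v ∈ A ∪ B, col v < K)
    (hcol : ∀ v ∈ A ∪ B, ∀ w ∈ A ∪ B, v ≠ w → col v = col w → ¬ ov v w)
    (hf : ∀ v ∈ A ∪ B, ∀ w ∈ A ∪ B, ov v w → f v ≤ f w + 1)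
    (hfA : ∀ v ∈ A \ B, f v = 0) (q : ℕ) (hfB : ∀ v ∈ B \ A, q * K ≤ f v)
    (g : ℕ) (hg0 : 0 < g)
    (hg : ∀ v ∈ A ∪ B, ((A ∪ B).filter fun w => w ≠ v ∧ ov v w).card ≤ g) {γ : ℝ} (hγ : 0 ≤ γ)
    (hgap : GapOn Q γ (A ∪ B)) :
    ‖gpr Q A * gpr Q B - gpr Q B * gpr Q A‖ ≤ 2 * Real.sqrt ((1 + γ / g ^ 2)⁻¹ ^ q) := by
  set S := gpr Q A * gpr Q B - gpr Q (A ∪ B) with hS
  have h1 : ‖S‖ ≤ Real.sqrt ((1 + γ / g ^ 2)⁻¹ ^ q) := by
    refine ContinuousLinearMap.opNorm_le_bound _ (Real.sqrt_nonneg _) fun x => ?_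
    have h2 := gpr_mul_gpr_sub Q hQ ov hsymm hov hcolK hcol hf hfA q hfB g hg0 hg hγ hgap x
    rw [← hS] at h2
    have h3 : ‖S x‖ = Real.sqrt (‖S x‖ ^ 2) := (Real.sqrt_sq (norm_nonneg _)).symm
    rw [h3, ← Real.sqrt_sq (norm_nonneg x), ← Real.sqrt_mul (by positivity)]
    exact Real.sqrt_le_sqrt h2
  have h2 : gpr Q A * gpr Q B - gpr Q B * gpr Q A = S - star S := by
    rw [hS, star_sub, star_mul_eq (gpr_proj Q A).isSelfAdjoint (gpr_proj Q B).isSelfAdjoint,
      (gpr_proj Q (A ∪ B)).isSelfAdjoint.star_eq]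
    abel
  rw [h2]
  refine (norm_sub_le _ _).trans ?_
  have h3 : ‖star S‖ = ‖S‖ := by
    rw [ContinuousLinearMap.star_eq_adjoint]
    exact LinearIsometryEquiv.norm_map _ _
  rw [h3]
  linarith

end Pool.Agent.Peps99
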